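import Mathlib

/-!
Definitions for the volume ratio of linear images of the nuclear norm ball (MP_29a76b_gt).
-/

set_option autoImplicit false

open MeasureTheory Metric Module

namespace Pool.Agent.TH599.VR

/-- The nuclear norm of a real square matrix: the sum of its singular values. -/
noncomputable def nuc {d : ℕ} (A : Matrix (Fin d) (Fin d) ℝ) : ℝ :=
  ∑ i : Fin d, (Matrix.toEuclideanLin A).singularValues i

/-- The Schatten-1 ball: the matrices of nuclear norm at most one. -/
def S1 (d : ℕ) : Set (Matrix (Fin d) (Fin d) ℝ) := {A | nuc A ≤ 1}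

/-- A (nondegenerate) ellipsoid of a Euclidean space: the image of the closed unit ball under an
invertible affine map. -/
def IsEllipsoid {V : Type*} [NormedAddCommGroup V] [InnerProductSpace ℝ V] (E : Set V) : Prop :=
  ∃ (L : V ≃ₗ[ℝ] V) (c : V), E = (fun x => L x + c) '' closedBall (0 : V) 1

/-- The trace of the set `K` on its linear span, as a subset of that span. -/
def traceOnSpan {n : ℕ} (K : Set (EuclideanSpace ℝ (Fin n))) :
    Set (Submodule.span ℝ K) := {x | (x : EuclideanSpace ℝ (Fin n)) ∈ K}

/-- The volume ratio of a set, computed in its linear span `S`: with `k` the dimension of `S`, it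
is the infimum of the numbers `(vol_k K / vol_k E)^(1/k)` over the ellipsoids `E` of `S` that are
contained in `K`. -/
noncomputable def vr {n : ℕ} (K : Set (EuclideanSpace ℝ (Fin n))) : ℝ :=
  sInf {t : ℝ | ∃ E : Set (Submodule.span ℝ K), IsEllipsoid E ∧ E ⊆ traceOnSpan K ∧
    t = ((volume (traceOnSpan K)).toReal / (volume E).toReal) ^
      (1 / (finrank ℝ (Submodule.span ℝ K) : ℝ))}

/-- The l1-sum of `J` cubes of dimension `m`. -/
def cubes (J m : ℕ) : Set (EuclideanSpace ℝ (Fin J × Fin m)) :=
  {x | ∑ j : Fin J, ‖(fun i : Fin m => x (j, i))‖ ≤ 1}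

/-- The unit ball of l1 on a finite index type. -/
def l1ball (I : Type*) [Fintype I] : Set (I → ℝ) := {a | ∑ i, |a i| ≤ 1}

end Pool.Agent.TH599.VR
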