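import Mathlib

set_option autoImplicit false

open Real

namespace Pool.Agent.TH599.VR

lemma factorial_ge (n : ℕ) : ((n : ℝ) / 3) ^ n ≤ (n.factorial : ℝ) := by
  have h := Real.pow_div_factorial_le_exp (n : ℝ) (Nat.cast_nonneg n) n
  have hf : (0 : ℝ) < (n.factorial : ℝ) := by exact_mod_cast n.factorial_pos
  rw [div_le_iff₀ hf] at h
  have he : Real.exp (n : ℝ) ≤ 3 ^ n := by
    have : Real.exp (n : ℝ) = (Real.exp 1) ^ n := by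
      rw [← Real.exp_nat_mul]; simp
    rw [this]
    exact pow_le_pow_left₀ (Real.exp_pos 1).le (Real.exp_one_lt_d9.le.trans (by norm_num)) n
  rw [div_pow, div_le_iff₀ (by positivity)]
  calc (n : ℝ) ^ n ≤ Real.exp n * (n.factorial : ℝ) := h
    _ ≤ 3 ^ n * (n.factorial : ℝ) := by gcongr
    _ = (n.factorial : ℝ) * 3 ^ n := mul_comm _ _

/-- The numerical estimate: with `m = 4 q^2` and `h = 2 q^2 J`. -/
lemma numeric (q J : ℕ) (hq : 1 ≤ q) (hJ : 1 ≤ J) :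
    ((q : ℝ) / 4) ^ (J * (4 * q ^ 2)) ≤
      (((2 : ℝ) ^ (4 * q ^ 2) * ((4 * q ^ 2).factorial : ℝ)) ^ J /
        ((J * (4 * q ^ 2)).factorial : ℝ)) * (J : ℝ) ^ (2 * q ^ 2 * J) *
          ((2 * q ^ 2 * J).factorial : ℝ) / Real.pi ^ (2 * q ^ 2 * J) := by
  set h : ℕ := 2 * q ^ 2 * J with hh
  have hn : J * (4 * q ^ 2) = 2 * h := by rw [hh]; ring
  have hhpos : 0 < h := by positivity
  have hq0 : (0 : ℝ) < q := by exact_mod_cast hq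
  have hJ0 : (0 : ℝ) < J := by exact_mod_cast hJ
  have hh0 : (0 : ℝ) < h := by exact_mod_cast hhpos
  have hhr : (h : ℝ) = 2 * q ^ 2 * J := by rw [hh]; push_cast; ring
  -- pieces
  have h1 : ((4 * (q : ℝ) ^ 2) / 3) ^ (4 * q ^ 2) ≤ ((4 * q ^ 2).factorial : ℝ) := by
    have := factorial_ge (4 * q ^ 2)
    push_cast at this
    exact this
  have h2 : ((2 * (4 * (q : ℝ) ^ 2) / 3) ^ 2) ^ h ≤
      ((2 : ℝ) ^ (4 * q ^ 2) * ((4 * q ^ 2).factorial : ℝ)) ^ J := by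
    have e1 : ((2 * (4 * (q : ℝ) ^ 2) / 3) ^ 2) ^ h =
        ((2 : ℝ) ^ (4 * q ^ 2) * ((4 * (q : ℝ) ^ 2) / 3) ^ (4 * q ^ 2)) ^ J := by
      rw [← mul_pow, ← pow_mul, ← pow_mul, mul_comm (4 * q ^ 2) J, hn]
      congr 1
      ring
    rw [e1]
    gcongr
  have h3 : ((J * (4 * q ^ 2)).factorial : ℝ) ≤ ((2 * (h : ℝ)) ^ 2) ^ h := by
    rw [hn, ← pow_mul]
    have := Nat.factorial_le_pow (2 * h)
    have h' : (((2 * h).factorial : ℕ) : ℝ) ≤ (((2 * h) ^ (2 * h) : ℕ) : ℝ) := by exact_mod_cast this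
    push_cast at h'
    exact h'
  have h4 : ((h : ℝ) / 3) ^ h ≤ (h.factorial : ℝ) := factorial_ge h
  have h5 : Real.pi ^ h ≤ (4 : ℝ) ^ h := pow_le_pow_left₀ Real.pi_pos.le Real.pi_le_four h
  have hpi : (0 : ℝ) < Real.pi ^ h := pow_pos Real.pi_pos _
  have hfac : (0 : ℝ) < ((J * (4 * q ^ 2)).factorial : ℝ) := by
    exact_mod_cast (J * (4 * q ^ 2)).factorial_pos
  have s1 : ((q : ℝ) / 4) ^ (J * (4 * q ^ 2)) = (((q : ℝ) / 4) ^ 2) ^ h := by rw [hn, pow_mul]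
  have s2 : (((q : ℝ) / 4) ^ 2) ^ h ≤
      ((((2 * (4 * (q : ℝ) ^ 2) / 3) ^ 2) / ((2 * (h : ℝ)) ^ 2)) * J * (h / 3) / 4) ^ h := by
    apply pow_le_pow_left₀ (by positivity)
    rw [hhr]
    have : (((2 * (4 * (q : ℝ) ^ 2) / 3) ^ 2) / ((2 * (2 * (q : ℝ) ^ 2 * J)) ^ 2)) * J *
        ((2 * (q : ℝ) ^ 2 * J) / 3) / 4 = (2 / 27) * (q : ℝ) ^ 2 := by
      field_simp
      ring
    rw [this]
    nlinarith [sq_nonneg (q : ℝ)]
  have s3 : ((((2 * (4 * (q : ℝ) ^ 2) / 3) ^ 2) / ((2 * (h : ℝ)) ^ 2)) * J * (h / 3) / 4) ^ h =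
      (((2 * (4 * (q : ℝ) ^ 2) / 3) ^ 2) ^ h / ((2 * (h : ℝ)) ^ 2) ^ h) * (J : ℝ) ^ h *
          ((h : ℝ) / 3) ^ h / (4 : ℝ) ^ h := by
    rw [div_pow, mul_pow, mul_pow, div_pow]
  have s4 : (((2 * (4 * (q : ℝ) ^ 2) / 3) ^ 2) ^ h / ((2 * (h : ℝ)) ^ 2) ^ h) * (J : ℝ) ^ h *
          ((h : ℝ) / 3) ^ h / (4 : ℝ) ^ h ≤ (((2 : ℝ) ^ (4 * q ^ 2) * ((4 * q ^ 2).factorial : ℝ)) ^ J /
        ((J * (4 * q ^ 2)).factorial : ℝ)) * (J : ℝ) ^ h *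
          (h.factorial : ℝ) / Real.pi ^ h := by
    gcongr
  exact (s1.le.trans s2).trans (s3.le.trans s4)

end Pool.Agent.TH599.VR
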