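import Pool.Agent.TH395.J2563
import Pool.Agent.TH416.J2564
import Pool.Agent.TH395.J2565
import Pool.Agent.TH55.J2566
import Pool.Agent.TH740.J2567
import Pool.Agent.TH599.VR.Num

/-!
Assembly for the volume ratio of linear images of the nuclear norm ball (MP_29a76b_gt).
-/

set_option autoImplicit false

open MeasureTheory Metric Module
open Pool.Agent.TH395.J2563 (diag_le_nuc nuc_diagonal)
open Pool.Agent.TH416.J2564 (cubes_eq_image)
open Pool.Agent.TH395.J2565 (volume_cubes)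
open Pool.Agent.TH55.J2566 (det_le)
open Pool.Agent.TH740.J2567 (le_vr_of_isometry)

namespace Pool.Agent.TH599.VR


/-- the diagonal of a matrix, as a linear map -/
def diagL (d : ℕ) : Matrix (Fin d) (Fin d) ℝ →ₗ[ℝ] (Fin d → ℝ) where
  toFun A := fun i => A i i
  map_add' A B := by ext i; simp
  map_smul' c A := by ext i; simp

lemma diagL_image (d : ℕ) : diagL d '' S1 d = l1ball (Fin d) := by
  ext a
  constructor
  · rintro ⟨A, hA, rfl⟩
    exact (diag_le_nuc A).trans hA
  · intro ha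
    refine ⟨Matrix.diagonal a, ?_, ?_⟩
    · show nuc (Matrix.diagonal a) ≤ 1
      rw [nuc_diagonal]
      exact ha
    · ext i
      simp [diagL]

/-- restriction of a vector along an embedding -/
def resL {I : Type*} {d : ℕ} (e : I ↪ Fin d) : (Fin d → ℝ) →ₗ[ℝ] (I → ℝ) where
  toFun a := fun i => a (e i)
  map_add' a b := by ext i; simp
  map_smul' c a := by ext i; simp

lemma resL_image {I : Type*} [Fintype I] {d : ℕ} (e : I ↪ Fin d) :
    resL e '' l1ball (Fin d) = l1ball I := by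
  classical
  ext a
  constructor
  · rintro ⟨b, hb, rfl⟩
    show ∑ i, |b (e i)| ≤ 1
    have : ∑ i, |b (e i)| = ∑ j ∈ Finset.univ.map e, |b j| := by simp
    rw [this]
    exact (Finset.sum_le_univ_sum_of_nonneg (fun _ => abs_nonneg _)).trans hb
  · intro ha
    refine ⟨fun j => Function.extend e a 0 j, ?_, ?_⟩
    · show ∑ j, |Function.extend e a 0 j| ≤ 1
      have h0 : ∑ j, |Function.extend e a 0 j| = ∑ j ∈ Finset.univ.map e, |Function.extend e a 0 j| := by
        symm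
        apply Finset.sum_subset (Finset.subset_univ _)
        intro j _ hj
        have : ¬ ∃ i, e i = j := by simpa using hj
        rw [Function.extend_apply' _ _ _ this]
        simp
      rw [h0, Finset.sum_map]
      have : ∀ i, Function.extend e a 0 (e i) = a i := fun i => e.injective.extend_apply _ _ _
      simp only [this]
      exact ha
    · ext i
      show Function.extend e a 0 (e i) = a i
      exact e.injective.extend_apply _ _ _

/-- A coordinate isometric embedding. -/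
lemma exists_isometry {I : Type*} [Fintype I] {d : ℕ} (hc : Fintype.card I ≤ d) :
    Nonempty (EuclideanSpace ℝ I →ₗᵢ[ℝ] EuclideanSpace ℝ (Fin d)) := by
  classical
  have : Nonempty (I ↪ Fin d) := by
    rw [Function.Embedding.nonempty_iff_card_le]; simpa using hc
  obtain ⟨f⟩ := this
  have ho : Orthonormal ℝ (fun i => EuclideanSpace.basisFun (Fin d) ℝ (f i)) :=
    (EuclideanSpace.basisFun (Fin d) ℝ).orthonormal.comp f f.injective
  let b := (EuclideanSpace.basisFun I ℝ)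
  let φ : EuclideanSpace ℝ I →ₗ[ℝ] EuclideanSpace ℝ (Fin d) :=
    b.toBasis.constr ℝ (fun i => EuclideanSpace.basisFun (Fin d) ℝ (f i))
  refine ⟨φ.isometryOfOrthonormal (v := b.toBasis) (by simp) ?_⟩
  have : (φ ∘ b.toBasis) = (fun i => EuclideanSpace.basisFun (Fin d) ℝ (f i)) := by
    ext1 i
    simp [φ]
  rw [this]
  exact ho

lemma closedBall_subset_cubes (J m : ℕ) (hJ : 1 ≤ J) :
    closedBall (0 : EuclideanSpace ℝ (Fin J × Fin m)) (1 / J) ⊆ cubes J m := by
  intro x hx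
  have hJ0 : (0 : ℝ) < J := by exact_mod_cast hJ
  rw [mem_closedBall_zero_iff] at hx
  show ∑ j : Fin J, ‖(fun i : Fin m => x (j, i))‖ ≤ 1
  have h1 : ∀ j : Fin J, ‖(fun i : Fin m => x (j, i))‖ ≤ 1 / J := by
    intro j
    rw [pi_norm_le_iff_of_nonneg (by positivity)]
    intro i
    exact (PiLp.norm_apply_le x (j, i)).trans hx
  calc ∑ j : Fin J, ‖(fun i : Fin m => x (j, i))‖ ≤ ∑ _j : Fin J, (1 / (J : ℝ)) :=
        Finset.sum_le_sum (fun j _ => h1 j)
    _ = 1 := by
        rw [Finset.sum_const, Finset.card_univ, Fintype.card_fin, nsmul_eq_mul]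
        field_simp

lemma ellipsoid_bound (q J : ℕ) (hq : 1 ≤ q) (hJ : 1 ≤ J)
    (E : Set (EuclideanSpace ℝ (Fin J × Fin (4 * q ^ 2)))) (hE : IsEllipsoid E)
    (hEK : E ⊆ cubes J (4 * q ^ 2)) :
    (q : ℝ) / 4 ≤ ((volume (cubes J (4 * q ^ 2))).toReal / (volume E).toReal) ^
      (1 / (Fintype.card (Fin J × Fin (4 * q ^ 2)) : ℝ)) := by
  obtain ⟨L, c, rfl⟩ := hE
  have hm : 1 ≤ 4 * q ^ 2 := by nlinarith [hq]
  have hdet := det_le J (4 * q ^ 2) hJ hm L c hEK
  set h : ℕ := 2 * q ^ 2 * J with hh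
  have hn : J * (4 * q ^ 2) = 2 * h := by rw [hh]; ring
  have hcard : Fintype.card (Fin J × Fin (4 * q ^ 2)) = J * (4 * q ^ 2) := by simp
  have hfr : finrank ℝ (EuclideanSpace ℝ (Fin J × Fin (4 * q ^ 2))) = 2 * h := by
    rw [finrank_euclideanSpace, hcard, hn]
  have hhpos : 0 < h := by rw [hh]; positivity
  have : Nontrivial (EuclideanSpace ℝ (Fin J × Fin (4 * q ^ 2))) :=
    Module.nontrivial_of_finrank_pos (R := ℝ) (by rw [hfr]; omega)
  set δ : ℝ := |LinearMap.det (L : EuclideanSpace ℝ (Fin J × Fin (4 * q ^ 2)) →ₗ[ℝ]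
    EuclideanSpace ℝ (Fin J × Fin (4 * q ^ 2)))| with hδ
  have hδ0 : 0 < δ := by
    rw [hδ, abs_pos]
    exact L.isUnit_det'.ne_zero
  have hJ0 : (0 : ℝ) < J := by exact_mod_cast hJ
  have hJh : (0 : ℝ) < (J : ℝ) ^ h := pow_pos hJ0 _
  have hδJ : δ * (J : ℝ) ^ h ≤ 1 := by
    have : (δ * (J : ℝ) ^ h) ^ 2 ≤ 1 := by
      rw [mul_pow, ← pow_mul, mul_comm h 2, ← hn]
      exact hdet
    nlinarith [mul_pos hδ0 hJh]
  -- the volume of the ellipsoid
  have hvE : (volume ((fun x => L x + c) '' closedBall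
      (0 : EuclideanSpace ℝ (Fin J × Fin (4 * q ^ 2))) 1)).toReal =
      δ * (Real.pi ^ h / (h.factorial : ℝ)) := by
    have e1 : (fun x => L x + c) '' closedBall
        (0 : EuclideanSpace ℝ (Fin J × Fin (4 * q ^ 2))) 1 =
        (fun y => y + c) '' ((L : EuclideanSpace ℝ (Fin J × Fin (4 * q ^ 2)) →ₗ[ℝ]
          EuclideanSpace ℝ (Fin J × Fin (4 * q ^ 2))) '' closedBall
          (0 : EuclideanSpace ℝ (Fin J × Fin (4 * q ^ 2))) 1) := by
      rw [Set.image_image]
      rfl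
    rw [e1, Set.image_add_right, measure_preimage_add_right, Measure.addHaar_image_linearMap,
      InnerProductSpace.volume_closedBall_of_dim_even hfr]
    rw [ENNReal.toReal_mul, ENNReal.toReal_ofReal (abs_nonneg _)]
    congr 1
    simp only [ENNReal.ofReal_one, one_pow, one_mul]
    rw [ENNReal.toReal_ofReal (by positivity)]
  have hvK : (volume (cubes J (4 * q ^ 2))).toReal =
      ((2 : ℝ) ^ (4 * q ^ 2) * ((4 * q ^ 2).factorial : ℝ)) ^ J /
        ((J * (4 * q ^ 2)).factorial : ℝ) := by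
    rw [volume_cubes J (4 * q ^ 2) hJ hm, ENNReal.toReal_ofReal (by positivity)]
  have hnum := numeric q J hq hJ
  rw [← hh] at hnum
  rw [hvE, hvK]
  set A : ℝ := ((2 : ℝ) ^ (4 * q ^ 2) * ((4 * q ^ 2).factorial : ℝ)) ^ J /
        ((J * (4 * q ^ 2)).factorial : ℝ) with hA
  have hA0 : 0 < A := by positivity
  have hpi : (0 : ℝ) < Real.pi ^ h := pow_pos Real.pi_pos _
  have hfac : (0 : ℝ) < (h.factorial : ℝ) := by exact_mod_cast h.factorial_pos
  have hlow : ((q : ℝ) / 4) ^ (J * (4 * q ^ 2)) ≤ A / (δ * (Real.pi ^ h / (h.factorial : ℝ))) := by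
    refine hnum.trans ?_
    rw [le_div_iff₀ (by positivity)]
    have e2 : A * (J : ℝ) ^ h * (h.factorial : ℝ) / Real.pi ^ h *
        (δ * (Real.pi ^ h / (h.factorial : ℝ))) = A * (δ * (J : ℝ) ^ h) := by
      field_simp
    rw [e2]
    nlinarith
  have hcpos : 0 < J * (4 * q ^ 2) := by positivity
  have hc0 : ((J * (4 * q ^ 2) : ℕ) : ℝ) ≠ 0 := by exact_mod_cast hcpos.ne'
  rw [hcard]
  calc (q : ℝ) / 4 = (((q : ℝ) / 4) ^ (J * (4 * q ^ 2))) ^ (1 / ((J * (4 * q ^ 2) : ℕ) : ℝ)) := by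
        rw [← Real.rpow_natCast, ← Real.rpow_mul (by positivity), mul_one_div_cancel hc0,
          Real.rpow_one]
    _ ≤ _ := Real.rpow_le_rpow (by positivity) hlow (by positivity)

/-- The quantitative result. -/
theorem main (q J d : ℕ) (hq : 1 ≤ q) (hJ : 1 ≤ J) (hd : J * 2 ^ (4 * q ^ 2) ≤ d) :
    ∃ M : Matrix (Fin d) (Fin d) ℝ →ₗ[ℝ] EuclideanSpace ℝ (Fin d),
      finrank ℝ (LinearMap.range M) = J * (4 * q ^ 2) ∧ (q : ℝ) / 4 ≤ vr (M '' S1 d) := by
  classical
  have hc1 : Fintype.card (Fin J × (Fin (4 * q ^ 2) → Bool)) ≤ Fintype.card (Fin d) := by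
    simpa using hd
  obtain ⟨e⟩ := Function.Embedding.nonempty_of_card_le hc1
  have hc2 : Fintype.card (Fin J × Fin (4 * q ^ 2)) ≤ d := by
    have : 4 * q ^ 2 ≤ 2 ^ (4 * q ^ 2) := Nat.lt_two_pow_self.le
    simp only [Fintype.card_prod, Fintype.card_fin]
    exact (Nat.mul_le_mul_left J this).trans hd
  obtain ⟨ι⟩ := exists_isometry (I := Fin J × Fin (4 * q ^ 2)) hc2
  obtain ⟨L, hL⟩ := cubes_eq_image J (4 * q ^ 2)
  refine ⟨ι.toLinearMap ∘ₗ L ∘ₗ resL e ∘ₗ diagL d, ?_, ?_⟩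
  · have hsurj : Function.Surjective (L ∘ₗ resL e ∘ₗ diagL d) := by
      rw [← LinearMap.range_eq_top, eq_top_iff]
      have himg : cubes J (4 * q ^ 2) ⊆ LinearMap.range (L ∘ₗ resL e ∘ₗ diagL d) := by
        rw [← hL, ← resL_image e, ← diagL_image d]
        rintro x ⟨_, ⟨_, ⟨A, hA, rfl⟩, rfl⟩, rfl⟩
        exact ⟨A, rfl⟩
      intro x _
      by_cases hx : x = 0
      · rw [hx]; exact Submodule.zero_mem _
      have hJ0 : (0 : ℝ) < J := by exact_mod_cast hJ
      have hxn : 0 < ‖x‖ := norm_pos_iff.mpr hx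
      have hmem : ((1 / (J : ℝ)) / ‖x‖) • x ∈ LinearMap.range (L ∘ₗ resL e ∘ₗ diagL d) := by
        apply himg
        apply closedBall_subset_cubes J (4 * q ^ 2) hJ
        rw [mem_closedBall_zero_iff, norm_smul, Real.norm_of_nonneg (by positivity)]
        rw [div_mul_cancel₀ _ hxn.ne']
      have hne : ((1 / (J : ℝ)) / ‖x‖) ≠ 0 := by positivity
      exact (Submodule.smul_mem_iff _ hne).mp hmem
    have hr : LinearMap.range (ι.toLinearMap ∘ₗ L ∘ₗ resL e ∘ₗ diagL d) =
        LinearMap.range ι.toLinearMap :=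
      LinearMap.range_comp_of_range_eq_top _ (LinearMap.range_eq_top.mpr hsurj)
    rw [hr, LinearMap.finrank_range_of_inj ι.injective, finrank_euclideanSpace]
    simp
  · have himg : (ι.toLinearMap ∘ₗ L ∘ₗ resL e ∘ₗ diagL d) '' S1 d = ι '' cubes J (4 * q ^ 2) := by
      rw [← hL, ← resL_image e, ← diagL_image d, Set.image_image, Set.image_image, Set.image_image]
      rfl
    rw [himg]
    have hJ0 : (0 : ℝ) < 1 / J := by
      have : (0 : ℝ) < J := by exact_mod_cast hJ
      positivity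
    exact le_vr_of_isometry ι (cubes J (4 * q ^ 2)) (1 / J) hJ0
      (closedBall_subset_cubes J (4 * q ^ 2) hJ) _ (fun E hE hEK => ellipsoid_bound q J hq hJ E hE hEK)


end Pool.Agent.TH599.VR
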