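import Pool.Agent.TH599.VR.Main

set_option autoImplicit false

open MeasureTheory Module

namespace Pool.Agent.TH599.VR

/-- The volume ratio of a body `K` of a Euclidean space `V` of dimension `n`: the infimum of the
numbers `(vol K / vol E)^(1/n)` over the ellipsoids `E` contained in `K`. -/
noncomputable def bodyRatio {V : Type*} [NormedAddCommGroup V] [InnerProductSpace ℝ V]
    [MeasureSpace V] (K : Set V) : ℝ :=
  sInf {t : ℝ | ∃ E : Set V, IsEllipsoid E ∧ E ⊆ K ∧
    t = ((volume K).toReal / (volume E).toReal) ^ (1 / (finrank ℝ V : ℝ))}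

/-- The volume ratio of a set of the space `ℝ ^ n`, computed in its linear span. -/
noncomputable def volumeRatio {n : ℕ} (K : Set (EuclideanSpace ℝ (Fin n))) : ℝ :=
  bodyRatio (traceOnSpan K)

lemma volumeRatio_eq {n : ℕ} (K : Set (EuclideanSpace ℝ (Fin n))) : volumeRatio K = vr K := rfl

end Pool.Agent.TH599.VR
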